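import Pool.Agent.Lib.MP_91c05b_co.K.Fin

namespace Pool.Agent.Results.MP_91c05b_co.ManySides

open Pool.Agent.Lib.MP_91c05b_co

/-- For every arrangement of `n ≥ 3` pseudolines in the real projective plane (simple or not) the
numbers `p_k` of its `k`-sided cells satisfy `p_6 + 2 p_7 + 3 p_8 + … ≤ (n ^ 2 + 3 n) / 6`. -/
theorem result (n : ℕ) (hn : 3 ≤ n) (A : Arrangement n) (M : ℕ) :
    ∑ k ∈ Finset.Icc 6 M, ((k : ℝ) - 5) * A.numCells k ≤ ((n : ℝ) ^ 2 + 3 * n) / 6 := by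
  have h1 := A.sum_numCells_le hn M
  have h2 := A.sum_numCellsGe_bound hn M
  have h3 : 6 * ∑ k ∈ Finset.Icc 6 M, (k - 5) * A.numCells k ≤ n ^ 2 + 3 * n :=
    (Nat.mul_le_mul_left _ h1).trans h2
  have h4 : ((6 * ∑ k ∈ Finset.Icc 6 M, (k - 5) * A.numCells k : ℕ) : ℝ)
      ≤ ((n ^ 2 + 3 * n : ℕ) : ℝ) := by exact_mod_cast h3
  push_cast at h4
  have h5 : ∑ k ∈ Finset.Icc 6 M, ((k : ℝ) - 5) * A.numCells k =
      ∑ k ∈ Finset.Icc 6 M, ((k - 5 : ℕ) : ℝ) * A.numCells k := by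
    refine Finset.sum_congr rfl fun k hk => ?_
    rw [Finset.mem_Icc] at hk
    rw [Nat.cast_sub (by omega)]
    norm_num
  rw [h5]
  linarith

end Pool.Agent.Results.MP_91c05b_co.ManySides
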