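import Pool.Agent.Lib.MP_91c05b_co.Final

namespace Pool.Agent.Results.MP_91c05b_co.Pentagons

open Pool.Agent.Lib.MP_91c05b_co

/-- For every `n ≥ 3` the maximum number `p` of five-sided cells of an arrangement of `n`
pseudolines in the real projective plane (simple or not) satisfies
`n ^ 2 / 4 - 4 n ≤ p ≤ (n ^ 2 - n - 6) / 4`. -/
theorem result (n : ℕ) (hn : 3 ≤ n) :
    ∃ p : ℕ, IsGreatest {m : ℕ | ∃ A : Arrangement n, A.numCells 5 = m} p ∧
      (n : ℝ) ^ 2 / 4 - 4 * n ≤ p ∧ (p : ℝ) ≤ ((n : ℝ) ^ 2 - n - 6) / 4 := by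
  obtain ⟨w, hw, hb⟩ := exists_pent n
  obtain ⟨p, h1, h2, h3⟩ := exists_max (k := 5) hn (by norm_num) hw
  refine ⟨p, h1, hb.trans (by exact_mod_cast h2), ?_⟩
  have h4 : ((2 * p + 3 : ℕ) : ℝ) ≤ ((n.choose 2 : ℕ) : ℝ) := by exact_mod_cast h3
  have h5 := choose_two_real n
  push_cast at h4
  linarith

end Pool.Agent.Results.MP_91c05b_co.Pentagons
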